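import Pool.Agent.V8H27.NP.Asm

/-!
# `GL_2` with arbitrary central character: few absolute values of the Hecke eigenvalues

`n = 1`, so `G = GSp_2 = GL_2` and `ᴸG = GL_2(ℂ)`. Let `π` be a unitary cuspidal automorphic representation of `GL_2`
over `ℚ` with central character `ω`, a Dirichlet character modulo `M`, and `π_∞` a principal series with parameter
`|·|^r sgn^{e₁} ⊕ |·|^{-r} sgn^{e₂}` (Maass forms of weight `0` and `1`, with nebentypus). Let `S` be a finite set of
primes containing the ramified ones and `A_p = diag(α_p, β_p)` the Satake parameters, `α_p β_p = ω(p)`; the Hecke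
eigenvalues are `a_p = α_p + β_p`. The irreducible algebraic representations of `GL_2(ℂ)` are `Sym^k ⊗ det^j`, and
`L_S(s, π, Sym^k ⊗ det^j) = L_S(s, Sym^k π ⊗ ω^j)`.

**Theorem.** Assume that for `k ≤ K` and all Dirichlet characters `χ` the functions `L_S(s, Sym^k π ⊗ χ)` have
meromorphic continuations which are quotients of entire functions of order at most `3/2` and have the expected
functional equations. Assume that, for some finite set `T`, the absolute values `|a_p|`, `p ∉ T`, take at most `n`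
different values, where `2 n ≤ K`, or `2 n ≤ K + 1` and `0` is one of the values. Then

* `π_∞` is of Galois type: `r = 0`;
* for **every** `p ∉ S` there is `0 < m < 2 n` with `α_p^m = β_p^m`; in particular `|α_p| = |β_p| = 1`, the Ramanujan
  conjecture holds at every unramified prime, those of `T` included, and `α_p`, `β_p` are roots of unity;
* for **all** `k` and **all** Dirichlet characters `χ` the Euler product `L_S(s, Sym^k π ⊗ χ)` has a meromorphic
  continuation to `ℂ`, a quotient of entire functions of order at most `3/2`, and the expected functional equation with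
  the exact gamma factor.

So `L_S(s, π, ρ)` continues to a meromorphic function for all finite-dimensional `ρ`. Nothing is assumed about Galois
representations and none is constructed. For `K = 8` the assumptions on the first `K` symmetric powers are theorems
(`Sym^k π`, `k ≤ 4`, is automorphic by Gelbart-Jacquet, Kim-Shahidi and Kim, and Rankin-Selberg theory gives `k ≤ 8`),
so the theorem is unconditional if `|a_p|` takes at most four values for almost all `p`; this covers the values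
`0, 1, √2, 2` of the octahedral type. Five values, one of them `0` (icosahedral type: `0, 1, 2` and `(√5 ± 1)/2`), are
covered as soon as `Sym^9` is known.

Idea. Put `u_p = α_p / √ω(p)`; the unitarity gives `x_p = u_p + u_p⁻¹ ∈ ℝ` and `|a_p|² = x_p²`. A polynomial
`∏_{w} (X² - w)`, times `X` if `0` is a value, divided by `X²` in that case, is a real combination of characters of
`Sym^k`, `k ≤ K`, of one parity, which vanishes at all `x_p`, `p ∉ T`. Twisted by a character `ψ` and by the right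
powers of `ω` it is a linear relation between the logarithms of the *doubled* functions
`L(s, Sym^k π ⊗ χ) L(s, Sym^k π~ ⊗ χ⁻¹)`, whose functional equations relate `s` and `1 - s`. Such a relation passes to
the prime powers, to the gamma factors and to all primes `p ∉ S` (comparison of the orders of the zeros and poles;
primes are separated by their periods `2πi / log p`). The relation of the gamma factors for even and odd `ψ` gives
`r = 0`, and that `0` is a value if `e₁ ≢ e₂` modulo `2`. At the primes it shows that the set of values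
`w - 2 = u_p² + u_p⁻²` is closed under `u ↦ u^n`, so all `u_p²` are roots of unity; the set of traces is stable under
algebraic conjugation and every character of either parity is an integral combination of `n` basic ones. Hence
`L(s, Sym^k π ⊗ χ)` is a product of integral powers of the `L(s, Sym^j π ⊗ χ')`, `j ≤ K`.
-/

set_option autoImplicit false

open Filter Topology

namespace Pool.Agent.Results.MP_eea520_nt.FewAbsoluteValues

/-- parity of a Dirichlet character: `0` if it is even, `1` if it is odd -/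
noncomputable def parity {q : ℕ} (χ : DirichletCharacter ℂ q) : ℕ :=
  open Classical in if χ (-1) = 1 then 0 else 1

/-- The parameters of the gamma factor of `Sym^k π ⊗ χ`, `f` being the parity of `χ`, if the parameter of `π_∞` is
`|·|^r sgn^{e₁} ⊕ |·|^{-r} sgn^{e₂}`: the numbers `r (k - 2 i) + δ_i`, `0 ≤ i ≤ k`, where `δ_i ∈ {0, 1}` is
`(k - i) e₁ + i e₂ + f` modulo `2`. -/
noncomputable def gammaParameters (r : ℂ) (e₁ e₂ k f : ℕ) : List ℂ :=
  (List.range (k + 1)).map fun i : ℕ =>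
    r * ((k : ℂ) - 2 * i) + ((((k - i) * e₁ + i * e₂ + f) % 2 : ℕ) : ℂ)

/-- `∏_m Γ_ℝ(s + m)⁻¹`, `Γ_ℝ(s) = π^{-s/2} Γ(s/2)` -/
noncomputable def invGamma (μ : List ℂ) (s : ℂ) : ℂ :=
  (μ.map fun m => (Complex.Gammaℝ (s + m))⁻¹).prod

/-- `∏_{(p, b) ∈ l} (1 - b p^{-s})` -/
noncomputable def finEuler (l : List (ℕ × ℂ)) (s : ℂ) : ℂ :=
  (l.map fun x => 1 - x.2 * (x.1 : ℂ) ^ (-s)).prod

/-- the eigenvalues `χ(p) α_p^{k-i} β_p^i` of `χ(p) Sym^k(A_p)` -/
noncomputable def eigenvalue (α β : ℕ → ℂ) (k : ℕ) {q : ℕ} (χ : DirichletCharacter ℂ q) (p i : ℕ) : ℂ :=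
  χ p * α p ^ (k - i) * β p ^ i

/-- The Euler products `L_S(s, Sym^k π ⊗ χ) = ∏_{p ∉ S} ∏_{0 ≤ i ≤ k} (1 - χ(p) α_p^{k-i} β_p^i p^{-s})⁻¹` and
`L_S(s, Sym^k π~ ⊗ χ⁻¹)` extend to the meromorphic functions `N/D` and `N'/D'` on `ℂ` and have the functional
equation, the parameter of `π_∞` being `|·|^r sgn^{e₁} ⊕ |·|^{-r} sgn^{e₂}`. -/
structure TwistedL (S : Finset ℕ) (α β : ℕ → ℂ) (r : ℂ) (e₁ e₂ k : ℕ) {q : ℕ}
    (χ : DirichletCharacter ℂ q) (N D N' D' : ℂ → ℂ) : Prop where
  /-- `N`, `D`, `N'`, `D'` are entire -/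
  entire : Differentiable ℂ N ∧ Differentiable ℂ D ∧ Differentiable ℂ N' ∧ Differentiable ℂ D'
  /-- they are of order at most `3/2` -/
  order : ∃ C : ℝ, ∀ s, ‖N s‖ ≤ Real.exp (C * (1 + ‖s‖) ^ (3 / 2 : ℝ)) ∧
    ‖D s‖ ≤ Real.exp (C * (1 + ‖s‖) ^ (3 / 2 : ℝ)) ∧
    ‖N' s‖ ≤ Real.exp (C * (1 + ‖s‖) ^ (3 / 2 : ℝ)) ∧
    ‖D' s‖ ≤ Real.exp (C * (1 + ‖s‖) ^ (3 / 2 : ℝ))
  /-- `D` and `D'` have no zeros in `Re s > 1` -/
  ne_zero : ∀ s : ℂ, 1 < s.re → D s ≠ 0 ∧ D' s ≠ 0
  /-- the partial Euler products converge to `N/D` in `Re s > 1` -/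
  euler : ∀ s : ℂ, 1 < s.re → Tendsto (fun X : ℕ =>
    ∏ p ∈ (Finset.range X).filter (fun p => p.Prime ∧ p ∉ S),
      ∏ i ∈ Finset.range (k + 1), (1 - eigenvalue α β k χ p i * (p : ℂ) ^ (-s))⁻¹) atTop
      (𝓝 (N s / D s))
  /-- the partial Euler products of the contragredient converge to `N'/D'` in `Re s > 1` -/
  euler' : ∀ s : ℂ, 1 < s.re → Tendsto (fun X : ℕ =>
    ∏ p ∈ (Finset.range X).filter (fun p => p.Prime ∧ p ∉ S),
      ∏ i ∈ Finset.range (k + 1), (1 - (eigenvalue α β k χ p i)⁻¹ * (p : ℂ) ^ (-s))⁻¹) atTop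
      (𝓝 (N' s / D' s))
  /-- functional equation: with
  `Λ(s) = A^s · (invGamma μ s)⁻¹ · finEuler m s / finEuler l s · N s / D s`, where `μ` are the gamma parameters, and
  `Λ'(s) = A^s · (invGamma μ' s)⁻¹ · finEuler m' s / finEuler l' s · N' s / D' s`, where `μ'` are those with `-r`
  instead of `r`, it says `Λ(s) = ε Λ'(1 - s)`; the finite Euler products are over primes dividing `q` or in `S` -/
  functional : ∃ (l l' m m' : List (ℕ × ℂ)) (A : ℝ) (ε : ℂ), 0 < A ∧ ε ≠ 0 ∧
    (∀ x ∈ l ++ l' ++ m ++ m', x.1.Prime ∧ x.1 ∈ S ∪ q.primeFactors) ∧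
    ∀ s, (A : ℂ) ^ s * invGamma (gammaParameters (-r) e₁ e₂ k (parity χ)) (1 - s) *
        finEuler l' (1 - s) * finEuler m s * (N s * D' (1 - s)) =
      ε * (A : ℂ) ^ (1 - s) * invGamma (gammaParameters r e₁ e₂ k (parity χ)) s *
        finEuler l s * finEuler m' (1 - s) * (N' (1 - s) * D s)

/-- **Few absolute values of the Hecke eigenvalues.** Unconditional for `K = 8`, hence for at most four absolute
values `|a_p| = |α_p + β_p|` at the primes outside a finite set `T`. -/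
theorem result {S : Finset ℕ} {α β : ℕ → ℂ} {M : ℕ} [NeZero M] {ω : DirichletCharacter ℂ M} {r : ℂ}
    {e₁ e₂ K n : ℕ}
    (hM : ∀ p : ℕ, p.Prime → p ∣ M → p ∈ S)
    (hω : ∀ p : ℕ, p.Prime → p ∉ S → α p * β p = ω p)
    (hu : ∀ p : ℕ, p.Prime → p ∉ S → (starRingEnd ℂ) (α p + β p) = (α p)⁻¹ + (β p)⁻¹)
    (hinf : ω (-1) = (-1) ^ (e₁ + e₂))
    (hL : ∀ k ≤ K, ∀ (q : ℕ) [NeZero q] (χ : DirichletCharacter ℂ q),
      ∃ N D N' D' : ℂ → ℂ, TwistedL S α β r e₁ e₂ k χ N D N' D')
    (T : Finset ℕ) (hT : ((fun p => ‖α p + β p‖) '' {p : ℕ | p.Prime ∧ p ∉ T}).encard ≤ n)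
    (hn : 2 * n ≤ K ∨ ((∃ p : ℕ, p.Prime ∧ p ∉ T ∧ α p + β p = 0) ∧ 2 * n ≤ K + 1)) :
    r = 0 ∧
    (∀ p : ℕ, p.Prime → p ∉ S →
      ‖α p‖ = 1 ∧ ‖β p‖ = 1 ∧ ∃ m : ℕ, 0 < m ∧ m < 2 * n ∧ α p ^ m = β p ^ m) ∧
    ∀ (k q : ℕ) [NeZero q] (χ : DirichletCharacter ℂ q),
      ∃ N D N' D' : ℂ → ℂ, TwistedL S α β 0 e₁ e₂ k χ N D N' D' := by
  classical
  have hD : Pool.Agent.V8H27.NP.Dat S α β ω := ⟨hM, hω, hu⟩
  have hfin : ((fun p => ‖α p + β p‖) '' {p : ℕ | p.Prime ∧ p ∉ T}).Finite :=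
    Set.finite_of_encard_le_coe (k := n) hT
  have hcard : hfin.toFinset.card ≤ n := by
    rw [hfin.encard_eq_coe_toFinset_card] at hT
    exact_mod_cast hT
  set W : Finset ℝ := hfin.toFinset.image fun x => x ^ 2 with hW
  have hWc : W.card ≤ n := Finset.card_image_le.trans hcard
  have hTW : ∀ p : ℕ, p.Prime → p ∉ T → ‖α p + β p‖ ^ 2 ∈ W := by
    intro p hp hpT
    rw [hW, Finset.mem_image]
    refine ⟨‖α p + β p‖, ?_, rfl⟩
    rw [Set.Finite.mem_toFinset]
    exact ⟨p, ⟨hp, hpT⟩, rfl⟩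
  have hWn : 2 * W.card ≤ K ∨ ((0 : ℝ) ∈ W ∧ 2 * W.card ≤ K + 1) := by
    rcases hn with h | ⟨⟨p, hp, hpT, h0⟩, h⟩
    · exact Or.inl (by omega)
    · refine Or.inr ⟨?_, by omega⟩
      have := hTW p hp hpT
      rwa [h0, norm_zero, zero_pow two_ne_zero] at this
  have hyp : Pool.Agent.V8H27.NP.AllTw S α β r e₁ e₂ K := by
    intro k hk q _ χ
    obtain ⟨N, D, N', D', h⟩ := hL k hk q χ
    exact ⟨N, D, N', D', h.entire.1, h.entire.2.1, h.entire.2.2.1, h.entire.2.2.2, h.order,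
      fun s hs => (h.ne_zero s hs).1, fun s hs => (h.ne_zero s hs).2, h.euler, h.euler',
      h.functional⟩
  obtain ⟨hr, hcl, h0W⟩ := hD.rigid hinf hyp T W hTW hWn
  rw [hr] at hyp
  have hWK : 2 * W.card ≤ K + 1 := by
    rcases hWn with h | h
    · omega
    · exact h.2
  obtain ⟨h1, h2⟩ := hD.core hinf hyp W hWK hcl h0W
  refine ⟨hr, fun p hp hpS => ?_, fun k q _ χ => ?_⟩
  · obtain ⟨m, hm, hm2, hm3⟩ := h1 p hp hpS
    have e1 : ‖α p‖ ^ m = ‖β p‖ ^ m := by rw [← norm_pow, ← norm_pow, hm3]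
    have e2 : ‖α p‖ = ‖β p‖ :=
      (pow_left_inj₀ (norm_nonneg _) (norm_nonneg _) hm.ne').1 e1
    have e3 : ‖α p‖ * ‖β p‖ = 1 := by
      rw [← norm_mul, hω p hp hpS]
      exact hD.norm hp hpS
    rw [← e2] at e3
    have e4 : ‖α p‖ = 1 := by nlinarith [norm_nonneg (α p)]
    exact ⟨e4, e2 ▸ e4, m, hm, by omega, hm3⟩
  · obtain ⟨N, D, N', D', h⟩ := h2 k q χ
    exact ⟨N, D, N', D', ⟨h.diffN, h.diffD, h.diffN', h.diffD'⟩, h.order,
      fun s hs => ⟨h.ne s hs, h.ne' s hs⟩, h.euler, h.euler', h.fe⟩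

end Pool.Agent.Results.MP_eea520_nt.FewAbsoluteValues
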